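import Pool.Agent.helper58.PN.EVC

/-!
# Project PN, row EVA
-/

set_option autoImplicit false

namespace Pool.Agent.PN

open Module Polynomial Pool.Agent.helper27.PC

noncomputable section

/-- sum of a list with all entries equal to `c` -/
theorem EVA_sum (l : List ℕ) (c : ℕ) (h : ∀ a ∈ l, a = c) : l.sum = l.length * c := by
  induction l with
  | nil => simp
  | cons a l ih =>
    rw [List.sum_cons, List.length_cons, ih fun b hb => h b (List.mem_cons_of_mem _ hb),
      h a List.mem_cons_self]
    ring

theorem EVA_mem (l : List ℕ) (j : ℕ) (hj : j < l.length) : l.getD j 0 ∈ l := by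
  rw [List.getD_eq_getElem _ _ hj]
  exact List.getElem_mem hj

theorem EVA (hC : CRIT_stmt) (hB : HB_stmt) (hF : HF_stmt) (hM : PTM_stmt) : EVA_stmt := by
  intro t τ g hg hsort hτ hmem hr
  set ρ := τ.reverse with hρ
  have hτρ : τ = ρ.reverse := by rw [hρ, List.reverse_reverse]
  have hlen : ρ.length = τ.length := by rw [hρ, List.length_reverse]
  have hρm : ∀ a, a ∈ ρ ↔ a ∈ τ := fun a => by rw [hρ, List.mem_reverse]
  have hρs : ρ.Pairwise (· ≥ ·) := by
    rw [hρ, List.pairwise_reverse]; exact hsort
  set c := 2 * g + 1 with hc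
  set r := ρ.length with hrd
  set K := (g + 1) + ρ.sum + 2 with hK
  set z : ℤ := 2 * r * c - (c + 1) with hz
  have hcρ : c ∈ ρ := (hρm c).2 hmem
  have hge : ∀ a ∈ ρ, c ≤ a := fun a ha => (hτ a ((hρm a).1 ha)).2
  have hr2 : 1 ≤ r := by
    rcases Nat.eq_zero_or_pos r with h | h
    · rw [hrd, List.length_eq_zero_iff] at h
      rw [h] at hcρ
      simp at hcρ
    · exact h
  have hrg : (1 : ℤ) < ((r : ℤ) - 1) * g := by
    rw [← hlen] at hr
    have : ((1 : ℕ) : ℤ) < (((r - 1) * g : ℕ) : ℤ) := by exact_mod_cast hr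
    push_cast [Nat.cast_sub hr2] at this
    exact this
  have hle : ∀ a ∈ ρ, a < K := by
    intro a ha
    have := List.le_sum_of_mem ha
    omega
  have hcK : c < K := hle c hcρ
  -- the value of an entry `c`
  have hval : ∀ s : Bool, ¬ (t && s) = true → ∀ j < ρ.length, ρ.getD j 0 < 2 * (g + 1) →
      EVC_inn t K ρ (g + 1) z s j < 0 := by
    intro s hts j hj hjl
    have hm := EVA_mem ρ j hj
    have hjc : ρ.getD j 0 = c := by
      have := hge _ hm
      omega
    have hip : ip (g + 1) (ρ.getD j 0) = 0 := by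
      rw [hjc]; unfold ip; omega
    rw [EVC_inner hF hM t s K ρ (g + 1) z j (by rw [hjc]; omega) (by rw [hjc]; exact hcK) hts hip]
    have hdrop : ((ρ.drop (j + 1)).sum : ℤ) = ((r : ℤ) - 1 - j) * c := by
      have h1 : ∀ a ∈ ρ.drop (j + 1), a = c := by
        intro a ha
        have h2 : c ≤ a := hge a (List.mem_of_mem_drop ha)
        have h3 : a ≤ c := by
          rw [List.mem_iff_getElem] at ha
          obtain ⟨i, hi, rfl⟩ := ha
          rw [List.length_drop] at hi
          rw [List.getElem_drop, ← hjc, List.getD_eq_getElem _ _ hj]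
          exact (List.pairwise_iff_getElem.1 hρs) j (j + 1 + i) hj (by omega) (by omega)
        omega
      rw [EVA_sum _ c h1, List.length_drop]
      push_cast [Nat.cast_sub (show j + 1 ≤ ρ.length by omega)]
      rw [← hrd]
      ring
    have hw : (ρ.length : ℤ) * (ρ.getD j 0 : ℕ) + (ρ.drop (j + 1)).sum + (ρ.getD j 0 : ℕ) + j * (ρ.getD j 0 : ℕ) - z =
        ((c : ℤ) + 1) * ((1 : ℕ) : ℤ) := by
      rw [hdrop, hjc, ← hrd, hz]
      push_cast
      ring
    rw [hw, hjc]
    have hfac : (0 : ℚ) < (c.factorial : ℚ) := by exact_mod_cast Nat.factorial_pos c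
    have hc1 : ((c - 1 : ℕ) : ℚ) = 2 * g := by
      have : c - 1 = 2 * g := by omega
      rw [this]; push_cast; ring
    have hg1 : (1 : ℚ) ≤ g := by exact_mod_cast hg
    cases t
    · have h1 := EVC_VD s c 0 (by omega)
      rw [zero_add] at h1
      rw [h1, Nat.choose_one_right, Nat.choose_zero_right, hc1, ← add_div]
      apply div_neg_of_neg_of_pos _ hfac
      push_cast
      linarith
    · have hs : s = false := by
        cases s
        · rfl
        · exact absurd rfl hts
      subst hs
      rw [EVC_VB c 1 (by omega), Nat.choose_one_right, hc1]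
      have : (-1 : ℚ) ^ 1 * (2 * g) / c.factorial < 0 := by
        apply div_neg_of_neg_of_pos _ hfac
        linarith
      linarith
  have hNeg : Neg t ρ.reverse := by
    apply hC t K ρ (g + 1) z (fun a ha => (hτ a ((hρm a).1 ha)).1) (by omega) (le_refl _)
    · intro s hts T hT
      have h1 := (hB t s K (g + 1) T hts hT).1
      unfold o0
      push_cast at h1 ⊢
      rw [← hrd, hz, hc]
      push_cast
      intro h2
      nlinarith
    · apply EVC_Lq_neg
      · intro s hts j hj hjl
        exact (hval s hts j hj hjl).le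
      · rw [List.mem_iff_getElem] at hcρ
        obtain ⟨j, hj, hjc⟩ := hcρ
        have hjc' : ρ.getD j 0 = c := by rw [List.getD_eq_getElem _ _ hj]; exact hjc
        refine ⟨j, hj, by rw [hjc']; omega, hval false (by simp) j hj (by rw [hjc']; omega)⟩
  rw [hτρ]
  exact hNeg

end

end Pool.Agent.PN
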