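import Pool.Agent.helper58.PN.EVC

/-!
# Project PN, row EVB
-/

set_option autoImplicit false

namespace Pool.Agent.PN

open Module Polynomial Pool.Agent.helper27.PC

noncomputable section

/-- the leg of the hook, `c = 2 h + 3` -/
def EVB_b (t : Bool) (h : ℕ) : ℕ := if t = true then 2 * h + 1 else 2 * h + 2

theorem EVB_V (t s : Bool) (h : ℕ) (hts : ¬ (t && s) = true) :
    EVC_V t s (2 * h + 3) ((((2 * h + 3 : ℕ) : ℤ) + 1) * (EVB_b t h : ℕ)) < 0 := by
  have hfac : (0 : ℚ) < ((2 * h + 3).factorial : ℚ) := by exact_mod_cast Nat.factorial_pos _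
  have hodd : (-1 : ℚ) ^ (2 * h + 1) = -1 := Odd.neg_one_pow ⟨h, rfl⟩
  have heven : (-1 : ℚ) ^ (2 * h + 1 + 1) = 1 := Even.neg_one_pow ⟨h + 1, by ring⟩
  have hch : (2 * h + 3 - 1).choose (2 * h + 1) = 2 * h + 2 := by
    have e : 2 * h + 3 - 1 = (2 * h + 1) + 1 := by omega
    rw [e, Nat.choose_succ_self_right]
  cases t
  · have hb : EVB_b false h = 2 * h + 1 + 1 := rfl
    rw [hb, EVC_VD s (2 * h + 3) (2 * h + 1) (by omega), hodd, heven, hch]
    have e : (2 * h + 3 - 1).choose (2 * h + 1 + 1) = 1 := by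
      have e : 2 * h + 3 - 1 = (2 * h + 1) + 1 := by omega
      rw [e, Nat.choose_self]
    rw [e, ← add_div]
    apply div_neg_of_neg_of_pos _ hfac
    push_cast
    have : (0 : ℚ) ≤ h := by positivity
    linarith
  · have hs : s = false := by
      cases s
      · rfl
      · exact absurd rfl hts
    subst hs
    have hb : EVB_b true h = 2 * h + 1 := rfl
    rw [hb, EVC_VB (2 * h + 3) (2 * h + 1) (by omega), hodd, hch]
    have : (-1 : ℚ) * ((2 * h + 2 : ℕ) : ℚ) / (2 * h + 3).factorial < 0 := by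
      apply div_neg_of_neg_of_pos _ hfac
      push_cast
      have : (0 : ℚ) ≤ h := by positivity
      linarith
    linarith

/-- the number `z` -/
def EVB_z (t : Bool) (h r σ : ℕ) : ℤ :=
  ((r : ℤ) + 1) * (2 * h + 3) + σ - (2 * h + 4) * EVB_b t h

theorem EVB_hole (hB : HB_stmt) (t : Bool) (K h r σ : ℕ) (h1 : (r = 1 ∧ σ = 0 ∧ 1 ≤ h) ∨ (r = 2 ∧ σ = 3 ∧ 2 ≤ h)) :
    Hole t K r (h + 2) (EVB_z t h r σ) := by
  intro s hts T hT heq
  obtain ⟨_, h2, h3⟩ := hB t s K (h + 2) T hts hT
  unfold o0 EVB_z at heq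
  cases t
  · have hb : EVB_b false h = 2 * h + 2 := rfl
    rw [hb] at heq
    push_cast at heq h2
    rcases h1 with ⟨hr, hσ, hh⟩ | ⟨hr, hσ, hh⟩
    · subst hr hσ
      push_cast at heq
      have hh' : (1 : ℤ) ≤ h := by exact_mod_cast hh
      nlinarith
    · subst hr hσ
      push_cast at heq
      have hh' : (2 : ℤ) ≤ h := by exact_mod_cast hh
      nlinarith
  · have hb : EVB_b true h = 2 * h + 1 := rfl
    rw [hb] at heq
    have h3' := h3 rfl
    push_cast at heq h3'
    rcases h1 with ⟨hr, hσ, hh⟩ | ⟨hr, hσ, hh⟩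
    · subst hr hσ
      push_cast at heq
      have hh' : (1 : ℤ) ≤ h := by exact_mod_cast hh
      nlinarith
    · subst hr hσ
      push_cast at heq
      have hh' : (2 : ℤ) ≤ h := by exact_mod_cast hh
      nlinarith

/-- the entry `c` -/
theorem EVB_c (hF : HF_stmt) (hM : PTM_stmt) (t s : Bool) (K h : ℕ) (L : List ℕ) (hK : 2 * h + 3 < K)
    (hts : ¬ (t && s) = true) :
    EVC_inn t K ((2 * h + 3) :: L) (h + 2) (EVB_z t h (L.length + 1) L.sum) s 0 < 0 := by
  have hg : ((2 * h + 3) :: L).getD 0 0 = 2 * h + 3 := rfl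
  have hip : ip (h + 2) (2 * h + 3) = 0 := by unfold ip; omega
  rw [EVC_inner hF hM t s K _ (h + 2) _ 0 (by rw [hg]; omega) (by rw [hg]; exact hK) hts (by rw [hg]; exact hip), hg]
  have hw : ((((2 * h + 3) :: L).length : ℤ) * ((2 * h + 3 : ℕ) : ℤ) + ((((2 * h + 3) :: L).drop (0 + 1)).sum : ℕ) +
      ((2 * h + 3 : ℕ) : ℤ) + ((0 : ℕ) : ℤ) * ((2 * h + 3 : ℕ) : ℤ) - EVB_z t h (L.length + 1) L.sum) =
      (((2 * h + 3 : ℕ) : ℤ) + 1) * (EVB_b t h : ℕ) := by
    unfold EVB_z
    rw [List.length_cons, zero_add, List.drop_one, List.tail_cons]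
    push_cast
    ring
  rw [hw]
  exact EVB_V t s h hts

/-- the entry `3` -/
theorem EVB_3 (hB : HB_stmt) (hH : HOL_stmt) (t s : Bool) (K h : ℕ) (hh : 2 ≤ h)
    (hts : ¬ (t && s) = true) :
    EVC_inn t K [2 * h + 3, 3] (h + 2) (EVB_z t h 2 3) s 1 = 0 := by
  unfold EVC_inn
  have hg : [2 * h + 3, 3].getD 1 0 = 3 := rfl
  have hip : ip (h + 2) 3 = h := by unfold ip; omega
  rw [hg, hip]
  apply Finset.sum_eq_zero
  intro T hT
  apply Finset.sum_eq_zero
  intro l hl
  rw [if_neg]
  intro heq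
  obtain ⟨h1, h2, _, h4⟩ := hH s K h T hT
  obtain ⟨h5, _, _⟩ := h4 3 (by norm_num) l hl
  have hup : up 3 l ∉ T := (Finset.mem_filter.1 hl).2
  have hh' : (2 : ℤ) ≤ h := by exact_mod_cast hh
  obtain ⟨_, a2, a3⟩ := hB t s K h T hts hT
  obtain ⟨_, b2, b3⟩ := hB t s K (h + 3) _ hts h5
  unfold off o0 EVB_z at heq
  have hd : ([2 * h + 3, 3].drop (1 + 1)).sum = 0 := rfl
  have hlen : [2 * h + 3, 3].length = 2 := rfl
  rw [hd, hlen] at heq
  have hq1 : (K : ℤ) ≤ h + (l.2 + 3) := by
    have := h1 l.1 (l.2 + 3) hup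
    exact_mod_cast this
  cases t
  · have hb : EVB_b false h = 2 * h + 2 := rfl
    have htb : tb false l.1 = 0 := rfl
    rw [hb, htb] at heq
    push_cast at heq a2 b2
    nlinarith
  · have hb : EVB_b true h = 2 * h + 1 := rfl
    have hs : s = false := by
      cases s
      · rfl
      · exact absurd rfl hts
    subst hs
    have hq2 : (K : ℤ) + 1 ≤ h + (l.2 + 3) + tb true l.1 := by
      by_cases hl1 : l.1 = true
      · have : tb true l.1 = 1 := by rw [hl1]; rfl
        rw [this]; push_cast; linarith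
      · have hl1' : l.1 = false := by simpa using hl1
        have : tb true l.1 = 0 := by rw [hl1']; rfl
        rw [this]
        have h6 : (false, l.2 + 3) ∉ T := by
          rw [← hl1']; exact hup
        have := h2 (l.2 + 3) h6
        have h7 : K + 1 ≤ h + (l.2 + 3) := by omega
        have h8 : (K : ℤ) + 1 ≤ h + (l.2 + 3) := by exact_mod_cast h7
        push_cast; linarith
    rw [hb] at heq
    have a3' := a3 rfl
    have b3' := b3 rfl
    push_cast at heq a3' b3'
    nlinarith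

theorem EVB (hC : CRIT_stmt) (hB : HB_stmt) (hF : HF_stmt) (hM : PTM_stmt) (hH : HOL_stmt) : EVB_stmt := by
  intro t c hodd
  constructor
  · intro hc
    obtain ⟨m, hm⟩ := hodd
    obtain ⟨h, rfl⟩ : ∃ h, c = 2 * h + 3 := ⟨m - 1, by omega⟩
    have hh : 1 ≤ h := by omega
    have : Neg t [2 * h + 3].reverse := by
      apply hC t (h + 2 + (2 * h + 3) + 2) [2 * h + 3] (h + 2) (EVB_z t h 1 0)
      · intro a ha
        rw [List.mem_singleton] at ha
        subst ha
        exact ⟨h + 1, by ring⟩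
      · omega
      · simp
      · exact EVB_hole hB t _ h 1 0 (Or.inl ⟨rfl, rfl, hh⟩)
      · apply EVC_Lq_neg
        · intro s hts j hj _
          have hj0 : j = 0 := by simpa using hj
          subst hj0
          exact (EVB_c hF hM t s _ h [] (by omega) hts).le
        · exact ⟨0, by simp, by change 2 * h + 3 < 2 * (h + 2); omega, EVB_c hF hM t false _ h [] (by omega) (by simp)⟩
    simpa using this
  · intro hc
    obtain ⟨m, hm⟩ := hodd
    obtain ⟨h, rfl⟩ : ∃ h, c = 2 * h + 3 := ⟨m - 1, by omega⟩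
    have hh : 2 ≤ h := by omega
    have : Neg t [2 * h + 3, 3].reverse := by
      apply hC t (h + 2 + (2 * h + 3 + 3) + 2) [2 * h + 3, 3] (h + 2) (EVB_z t h 2 3)
      · intro a ha
        simp only [List.mem_cons, List.not_mem_nil, or_false] at ha
        rcases ha with rfl | rfl
        · exact ⟨h + 1, by ring⟩
        · exact ⟨1, by norm_num⟩
      · omega
      · simp
      · exact EVB_hole hB t _ h 2 3 (Or.inr ⟨rfl, rfl, hh⟩)
      · apply EVC_Lq_neg
        · intro s hts j hj _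
          have hj2 : j < 2 := by simpa using hj
          interval_cases j
          · exact (EVB_c hF hM t s _ h [3] (by omega) hts).le
          · exact (EVB_3 hB hH t s _ h hh hts).le
        · exact ⟨0, by simp, by change 2 * h + 3 < 2 * (h + 2); omega, EVB_c hF hM t false _ h [3] (by omega) (by simp)⟩
    simpa using this

end

end Pool.Agent.PN
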