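import Pool.Agent.helper32.PN.Spec

/-!
# Project PN, row SMC: rules for `Sm`
-/

set_option autoImplicit false

namespace Pool.Agent.PN

open Module Polynomial Pool.Agent.helper27.PC

theorem SMC_zero (s : ℕ) : Sm s fun _ => 0 :=
  ⟨0, fun _ _ => ⟨[], by simp, by simp, by simp⟩⟩

theorem SMC_add (s : ℕ) (p q : ℕ → ℤ[X]) (hp : Sm s p) (hq : Sm s q) : Sm s fun k => p k + q k := by
  obtain ⟨C₁, h₁⟩ := hp
  obtain ⟨C₂, h₂⟩ := hq
  refine ⟨C₁ + C₂, fun k hk => ?_⟩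
  obtain ⟨L₁, hl₁, he₁, hb₁⟩ := h₁ k (by omega)
  obtain ⟨L₂, hl₂, he₂, hb₂⟩ := h₂ k (by omega)
  refine ⟨L₁ ++ L₂, by rw [List.length_append]; omega, ?_, ?_⟩
  · simp only
    rw [he₁, he₂, List.map_append, List.sum_append]
  · intro a ha
    have hk0 : ∀ e : ℕ, (0 : ℤ) ≤ (k : ℤ) ^ e := fun e => by positivity
    rcases List.mem_append.1 ha with h | h
    · obtain ⟨h1, h2, h3⟩ := hb₁ a h
      refine ⟨h1, h2.trans ?_, by omega⟩
      push_cast
      have h4 : (0 : ℤ) ≤ (C₂ : ℤ) * (k : ℤ) ^ (a.2.2 - s) := by positivity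
      linarith
    · obtain ⟨h1, h2, h3⟩ := hb₂ a h
      refine ⟨h1, h2.trans ?_, by omega⟩
      push_cast
      have h4 : (0 : ℤ) ≤ (C₁ : ℤ) * (k : ℤ) ^ (a.2.2 - s) := by positivity
      linarith

/-- the product of two lists of monomials -/
def SMC_prod (L₁ L₂ : List (ℤ × ℕ × ℕ)) : List (ℤ × ℕ × ℕ) :=
  L₁.flatMap fun a => L₂.map fun b => (a.1 * b.1, a.2.1 + b.2.1, a.2.2 + b.2.2)

theorem SMC_prod_length (L₁ L₂ : List (ℤ × ℕ × ℕ)) :
    (SMC_prod L₁ L₂).length = L₁.length * L₂.length := by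
  unfold SMC_prod
  induction L₁ with
  | nil => simp
  | cons a l ih => rw [List.flatMap_cons, List.length_append, ih, List.length_map, List.length_cons]; ring

theorem SMC_prod_sum (L₁ L₂ : List (ℤ × ℕ × ℕ)) :
    ((SMC_prod L₁ L₂).map fun a => (monomial a.2.1 a.1 : ℤ[X])).sum =
      (L₁.map fun a => (monomial a.2.1 a.1 : ℤ[X])).sum * (L₂.map fun a => (monomial a.2.1 a.1 : ℤ[X])).sum := by
  unfold SMC_prod
  induction L₁ with
  | nil => simp
  | cons a l ih =>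
    rw [List.flatMap_cons, List.map_append, List.sum_append, ih, List.map_cons, List.sum_cons, add_mul]
    congr 1
    rw [List.map_map]
    have : (L₂.map ((fun a : ℤ × ℕ × ℕ => (monomial a.2.1 a.1 : ℤ[X])) ∘
        fun b => (a.1 * b.1, a.2.1 + b.2.1, a.2.2 + b.2.2))) =
        L₂.map fun b => (monomial a.2.1 a.1 : ℤ[X]) * monomial b.2.1 b.1 := by
      apply List.map_congr_left
      intro b _
      simp only [Function.comp]
      rw [monomial_mul_monomial]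
    rw [this, List.sum_map_mul_left]

theorem SMC_mul (s s' : ℕ) (p q : ℕ → ℤ[X]) (hp : Sm s p) (hq : Sm s' q) :
    Sm (s + s') fun k => p k * q k := by
  obtain ⟨C₁, h₁⟩ := hp
  obtain ⟨C₂, h₂⟩ := hq
  refine ⟨C₁ * C₂ + C₁ + C₂, fun k hk => ?_⟩
  have hk1 : C₁ ≤ k := by
    have := Nat.zero_le (C₁ * C₂); omega
  have hk2 : C₂ ≤ k := by
    have := Nat.zero_le (C₁ * C₂); omega
  obtain ⟨L₁, hl₁, he₁, hb₁⟩ := h₁ k hk1
  obtain ⟨L₂, hl₂, he₂, hb₂⟩ := h₂ k hk2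
  refine ⟨SMC_prod L₁ L₂, ?_, ?_, ?_⟩
  · rw [SMC_prod_length]
    have := Nat.mul_le_mul hl₁ hl₂
    omega
  · simp only
    rw [SMC_prod_sum, he₁, he₂]
  · intro c hc
    unfold SMC_prod at hc
    rw [List.mem_flatMap] at hc
    obtain ⟨a, ha, hc⟩ := hc
    rw [List.mem_map] at hc
    obtain ⟨b, hb, rfl⟩ := hc
    obtain ⟨a1, a2, a3⟩ := hb₁ a ha
    obtain ⟨b1, b2, b3⟩ := hb₂ b hb
    refine ⟨by simp only; omega, ?_, ?_⟩
    · simp only
      rw [abs_mul]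
      have e : a.2.2 + b.2.2 - (s + s') = (a.2.2 - s) + (b.2.2 - s') := by omega
      rw [e, pow_add]
      have hm : |a.1| * |b.1| ≤ (C₁ * (k : ℤ) ^ (a.2.2 - s)) * (C₂ * (k : ℤ) ^ (b.2.2 - s')) :=
        mul_le_mul a2 b2 (abs_nonneg _) (by positivity)
      refine hm.trans ?_
      push_cast
      have h4 : (0 : ℤ) ≤ ((C₁ : ℤ) + C₂) * ((k : ℤ) ^ (a.2.2 - s) * (k : ℤ) ^ (b.2.2 - s')) := by positivity
      nlinarith [h4]
    · simp only
      rw [add_mul]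
      have := Nat.zero_le (C₁ * C₂)
      omega

theorem SMC_mono (s s' : ℕ) (p : ℕ → ℤ[X]) (h : s' ≤ s) (hp : Sm s p) : Sm s' p := by
  obtain ⟨C, hC⟩ := hp
  refine ⟨C + 1, fun k hk => ?_⟩
  obtain ⟨L, hl, he, hb⟩ := hC k (by omega)
  refine ⟨L, by omega, he, fun a ha => ?_⟩
  obtain ⟨h1, h2, h3⟩ := hb a ha
  refine ⟨by omega, h2.trans ?_, by omega⟩
  have hk1 : (1 : ℤ) ≤ k := by
    have : 1 ≤ k := by omega
    exact_mod_cast this
  have h5 : (k : ℤ) ^ (a.2.2 - s) ≤ (k : ℤ) ^ (a.2.2 - s') := pow_le_pow_right₀ hk1 (by omega)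
  have h6 : (0 : ℤ) ≤ (k : ℤ) ^ (a.2.2 - s) := by positivity
  push_cast
  have h7 : (C : ℤ) * (k : ℤ) ^ (a.2.2 - s) ≤ C * (k : ℤ) ^ (a.2.2 - s') :=
    mul_le_mul_of_nonneg_left h5 (by positivity)
  nlinarith

theorem SMC_congr (s : ℕ) (p q : ℕ → ℤ[X]) (k₀ : ℕ) (h : ∀ k, k₀ ≤ k → p k = q k) (hp : Sm s p) :
    Sm s q := by
  obtain ⟨C, hC⟩ := hp
  refine ⟨C + k₀, fun k hk => ?_⟩
  obtain ⟨L, hl, he, hb⟩ := hC k (by omega)
  refine ⟨L, by omega, by rw [← h k (by omega)]; exact he, fun a ha => ?_⟩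
  obtain ⟨h1, h2, h3⟩ := hb a ha
  refine ⟨h1, h2.trans ?_, by omega⟩
  push_cast
  have h4 : (0 : ℤ) ≤ (k₀ : ℤ) * (k : ℤ) ^ (a.2.2 - s) := by positivity
  linarith

theorem SMC_mon (s e B : ℕ) (c : ℕ → ℤ) (x : ℕ → ℕ) (hs : s ≤ e)
    (h : ∀ k, B ≤ k → |c k| ≤ B * (k : ℤ) ^ (e - s) ∧ e * k ≤ x k + B) :
    Sm s fun k => C (c k) * X ^ x k := by
  refine ⟨B + 1, fun k hk => ?_⟩
  obtain ⟨h1, h2⟩ := h k (by omega)
  refine ⟨[(c k, x k, e)], by simp, ?_, ?_⟩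
  · simp only [List.map_cons, List.map_nil, List.sum_cons, List.sum_nil, add_zero]
    rw [C_mul_X_pow_eq_monomial]
  · intro a ha
    rw [List.mem_singleton] at ha
    subst ha
    refine ⟨hs, h1.trans ?_, ?_⟩
    · simp only
      push_cast
      have h4 : (0 : ℤ) ≤ (k : ℤ) ^ (e - s) := by positivity
      linarith
    · simp only
      omega

/-- the coefficient of a sum of monomials -/
theorem SMC_coeff (L : List (ℤ × ℕ × ℕ)) (x : ℕ) (D : ℤ) (hD : 0 ≤ D)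
    (h : ∀ a ∈ L, a.2.1 = x → |a.1| ≤ D) :
    |(L.map fun a => (monomial a.2.1 a.1 : ℤ[X])).sum.coeff x| ≤ L.length * D := by
  induction L with
  | nil => simp
  | cons a l ih =>
    rw [List.map_cons, List.sum_cons, coeff_add, List.length_cons]
    have ih' := ih fun b hb => h b (List.mem_cons_of_mem _ hb)
    have h1 : |(monomial a.2.1 a.1 : ℤ[X]).coeff x| ≤ D := by
      rw [coeff_monomial]
      split_ifs with hx
      · exact h a List.mem_cons_self hx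
      · simpa using hD
    refine (abs_add_le _ _).trans ?_
    push_cast
    linarith

theorem SMC_bound (s E B : ℕ) (p : ℕ → ℤ[X]) (hs : s ≤ E) (hp : Sm s p) :
    ∃ B' : ℕ, ∀ k, B' ≤ k → ∀ x, x ≤ E * k + B → |(p k).coeff x| ≤ B' * (k : ℤ) ^ (E - s) := by
  obtain ⟨C, hC⟩ := hp
  refine ⟨C * C + B + C + 1, fun k hk x hx => ?_⟩
  have hCC := Nat.zero_le (C * C)
  obtain ⟨L, hl, he, hb⟩ := hC k (by omega)
  have hk1 : (1 : ℤ) ≤ k := by
    have : 1 ≤ k := by omega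
    exact_mod_cast this
  have hD : (0 : ℤ) ≤ (C : ℤ) * (k : ℤ) ^ (E - s) := by positivity
  have hm : ∀ a ∈ L, a.2.1 = x → |a.1| ≤ (C : ℤ) * (k : ℤ) ^ (E - s) := by
    intro a ha hax
    obtain ⟨h1, h2, h3⟩ := hb a ha
    have h4 : a.2.2 ≤ E := by
      by_contra hcon
      have h5 : E + 1 ≤ a.2.2 := by omega
      have h6 : (E + 1) * k ≤ a.2.2 * k := Nat.mul_le_mul_right k h5
      rw [add_mul, one_mul] at h6
      omega
    refine h2.trans (mul_le_mul_of_nonneg_left (pow_le_pow_right₀ hk1 (by omega)) (by positivity))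
  have h7 := SMC_coeff L x _ hD hm
  rw [he]
  refine h7.trans ?_
  have hl' : (L.length : ℤ) ≤ C := by exact_mod_cast hl
  have h8 : (L.length : ℤ) * ((C : ℤ) * (k : ℤ) ^ (E - s)) ≤ C * ((C : ℤ) * (k : ℤ) ^ (E - s)) :=
    mul_le_mul_of_nonneg_right hl' hD
  refine h8.trans ?_
  push_cast
  have h9 : (0 : ℤ) ≤ ((B : ℤ) + C + 1) * (k : ℤ) ^ (E - s) := by positivity
  nlinarith [h9]

theorem SMC : SMC_stmt :=
  ⟨SMC_zero, SMC_add, SMC_mul, SMC_mono, SMC_congr, SMC_mon, SMC_bound⟩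

end Pool.Agent.PN
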