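import Pool.Agent.helper32.PN.Spec

/-!
# Project PN, common part of the rows EVA, EVB: the leading coefficient for the hooks
-/

set_option autoImplicit false

namespace Pool.Agent.PN

open Module Polynomial Pool.Agent.helper27.PC

noncomputable section

/-- the inner double sum of `Lq` -/
def EVC_inn (t : Bool) (K : ℕ) (ρ : List ℕ) (J : ℕ) (z : ℤ) (s : Bool) (j : ℕ) : ℚ :=
  ∑ T ∈ ends (ip J (ρ.getD j 0)) (base s K), ∑ l ∈ addable (ρ.getD j 0) T,
    if off t s K ρ j (ip J (ρ.getD j 0) + ρ.getD j 0) (ip J (ρ.getD j 0)) (move (ρ.getD j 0) T l) T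
        (l.2 + ρ.getD j 0 + tb t l.1) = 2 * z then
      (-1 : ℚ) ^ cnt T l (ρ.getD j 0) *
        (np (ip J (ρ.getD j 0) + ρ.getD j 0) (base s K) (move (ρ.getD j 0) T l) *
          np (ip J (ρ.getD j 0)) (base s K) T) /
        ((ip J (ρ.getD j 0) + ρ.getD j 0).factorial * (ip J (ρ.getD j 0)).factorial)
    else 0

theorem EVC_Lq (t : Bool) (K : ℕ) (ρ : List ℕ) (J : ℕ) (z : ℤ) :
    Lq t K ρ J z = 2 * ∑ s : Bool, if (t && s) = true then 0 else
      ∑ j ∈ Finset.range ρ.length, if ρ.getD j 0 < 2 * J then EVC_inn t K ρ J z s j else 0 := rfl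

theorem EVC_Lq_neg (t : Bool) (K : ℕ) (ρ : List ℕ) (J : ℕ) (z : ℤ)
    (h : ∀ s : Bool, ¬ (t && s) = true → ∀ j < ρ.length, ρ.getD j 0 < 2 * J → EVC_inn t K ρ J z s j ≤ 0)
    (h' : ∃ j < ρ.length, ρ.getD j 0 < 2 * J ∧ EVC_inn t K ρ J z false j < 0) : Lq t K ρ J z < 0 := by
  rw [EVC_Lq, Fintype.sum_bool]
  have h1 : ∀ s : Bool, (if (t && s) = true then (0 : ℚ) else
      ∑ j ∈ Finset.range ρ.length, if ρ.getD j 0 < 2 * J then EVC_inn t K ρ J z s j else 0) ≤ 0 := by
    intro s
    split_ifs with hs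
    · exact le_refl _
    · apply Finset.sum_nonpos
      intro j hj
      split_ifs with hj2
      · exact h s hs j (Finset.mem_range.1 hj) hj2
      · exact le_refl _
  have h2 : (if (t && false) = true then (0 : ℚ) else
      ∑ j ∈ Finset.range ρ.length, if ρ.getD j 0 < 2 * J then EVC_inn t K ρ J z false j else 0) < 0 := by
    rw [if_neg (by simp)]
    obtain ⟨j, hj, hj2, hj3⟩ := h'
    apply Finset.sum_neg'
    · intro i hi
      split_ifs with hi2
      · exact h false (by simp) i (Finset.mem_range.1 hi) hi2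
      · exact le_refl _
    · exact ⟨j, Finset.mem_range.2 hj, by rw [if_pos hj2]; exact hj3⟩
  have h3 := h1 true
  linarith

theorem EVC_np0 (S : St) : np 0 S S = 1 := by
  unfold np
  simp [paths]

/-- the shift of the leg -/
def EVC_sh (t s u : Bool) : ℤ := if u = s then 0 else 1 - tb t u

theorem EVC_off (hF : HF_stmt) (hM : PTM_stmt) (t s : Bool) (K c : ℕ) (ρ : List ℕ) (j b : ℕ) (u : Bool)
    (hc : 1 ≤ c) (hcK : c < K) (hts : ¬ (t && s) = true) (hb : b < c) :
    off t s K ρ j c 0 (move c (base s K) (hk s u K b)) (base s K)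
      (((hk s u K b).2 : ℤ) + c + tb t (hk s u K b).1) =
    2 * (ρ.length * c + (ρ.drop (j + 1)).sum + c + j * c - (c + 1) * (b + EVC_sh t s u)) := by
  have h1 : hk s u K b ∈ addable c (base s K) := ((hF s K c hc hcK).1 _).2 ⟨u, b, hb, rfl⟩
  have h2 := hM t K c (base s K) (hk s u K b) hc h1
  unfold off o0
  rw [h2]
  have h3 : ((hk s u K b).2 : ℤ) + tb t (hk s u K b).1 = K - b - EVC_sh t s u := by
    unfold hk EVC_sh
    simp only
    by_cases hu : u = s
    · subst hu
      rw [if_pos rfl, if_pos rfl]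
      have h4 : tb t u = 0 := by unfold tb; rw [if_neg hts]
      rw [h4]
      push_cast [Nat.cast_sub (show b ≤ K by omega)]
      ring
    · rw [if_neg hu, if_neg hu]
      have h5 : ((K - 1 - b : ℕ) : ℤ) = K - 1 - b := by omega
      rw [h5]
      ring
  have h4 : ((hk s u K b).2 : ℤ) = K - b - EVC_sh t s u - tb t (hk s u K b).1 := by linarith
  rw [h4]
  push_cast
  ring

/-- the sum over the hooks -/
def EVC_V (t s : Bool) (c : ℕ) (w : ℤ) : ℚ :=
  ∑ u : Bool, ∑ b ∈ Finset.range c,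
    if ((c : ℤ) + 1) * (b + EVC_sh t s u) = w then (-1 : ℚ) ^ b * ((c - 1).choose b) / c.factorial else 0

theorem EVC_addable (hF : HF_stmt) (s : Bool) (K c : ℕ) (hc : 1 ≤ c) (hcK : c < K) :
    addable c (base s K) = (Finset.univ ×ˢ Finset.range c).image fun p : Bool × ℕ => hk s p.1 K p.2 := by
  ext l
  rw [(hF s K c hc hcK).1 l, Finset.mem_image]
  constructor
  · rintro ⟨u, b, hb, rfl⟩
    exact ⟨(u, b), by simp [hb], rfl⟩
  · rintro ⟨⟨u, b⟩, hb, rfl⟩
    simp only [Finset.mem_product, Finset.mem_univ, Finset.mem_range, true_and] at hb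
    exact ⟨u, b, hb, rfl⟩

theorem EVC_inj (s : Bool) (K c : ℕ) (hcK : c < K) :
    Set.InjOn (fun p : Bool × ℕ => hk s p.1 K p.2)
      ((Finset.univ ×ˢ Finset.range c : Finset (Bool × ℕ)) : Set (Bool × ℕ)) := by
  rintro ⟨u, b⟩ hb ⟨u', b'⟩ hb' h
  simp only [Finset.coe_product, Finset.coe_univ, Finset.coe_range, Set.mem_prod, Set.mem_univ,
    Set.mem_Iio, true_and] at hb hb'
  simp only [hk, Prod.mk.injEq] at h
  obtain ⟨h1, h2⟩ := h
  subst h1
  rw [Prod.mk.injEq]
  refine ⟨rfl, ?_⟩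
  split_ifs at h2 with h3 <;> omega

theorem EVC_inner (hF : HF_stmt) (hM : PTM_stmt) (t s : Bool) (K : ℕ) (ρ : List ℕ) (J : ℕ) (z : ℤ) (j : ℕ)
    (hc : 1 ≤ ρ.getD j 0) (hcK : ρ.getD j 0 < K) (hts : ¬ (t && s) = true) (hip : ip J (ρ.getD j 0) = 0) :
    EVC_inn t K ρ J z s j = EVC_V t s (ρ.getD j 0)
      (ρ.length * (ρ.getD j 0) + (ρ.drop (j + 1)).sum + (ρ.getD j 0) + j * (ρ.getD j 0) - z) := by
  unfold EVC_inn EVC_V
  rw [hip]
  generalize ρ.getD j 0 = c at hc hcK
  have h0 : ends 0 (base s K) = {base s K} := rfl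
  rw [h0, Finset.sum_singleton, EVC_addable hF s K c hc hcK, Finset.sum_image (EVC_inj s K c hcK),
    Finset.sum_product]
  apply Finset.sum_congr rfl
  intro u _
  apply Finset.sum_congr rfl
  intro b hb
  rw [Finset.mem_range] at hb
  simp only
  rw [zero_add, EVC_off hF hM t s K c ρ j b u hc hcK hts hb]
  obtain ⟨h1, _, h3⟩ := (hF s K c hc hcK).2 u b hb
  rw [h1, h3, EVC_np0]
  have hiff : (2 * ((ρ.length : ℤ) * c + (ρ.drop (j + 1)).sum + c + j * c - (c + 1) * (b + EVC_sh t s u)) = 2 * z) ↔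
      ((c : ℤ) + 1) * (b + EVC_sh t s u) = ρ.length * c + (ρ.drop (j + 1)).sum + c + j * c - z := by
    constructor
    · intro h; linarith
    · intro h; rw [h]; ring
  by_cases hcase : ((c : ℤ) + 1) * (b + EVC_sh t s u) = ρ.length * c + (ρ.drop (j + 1)).sum + c + j * c - z
  · rw [if_pos (hiff.2 hcase), if_pos hcase]
    simp
  · rw [if_neg fun h => hcase (hiff.1 h), if_neg hcase]

/-- the value in type `B` -/
theorem EVC_VB (c b : ℕ) (hb : b < c) :
    EVC_V true false c (((c : ℤ) + 1) * b) = 2 * ((-1 : ℚ) ^ b * ((c - 1).choose b) / c.factorial) := by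
  unfold EVC_V
  rw [Fintype.sum_bool]
  have h : ∀ u : Bool, ∑ b' ∈ Finset.range c,
      (if ((c : ℤ) + 1) * (b' + EVC_sh true false u) = ((c : ℤ) + 1) * b then
        (-1 : ℚ) ^ b' * ((c - 1).choose b') / c.factorial else 0) =
      (-1 : ℚ) ^ b * ((c - 1).choose b) / c.factorial := by
    intro u
    have hsh : EVC_sh true false u = 0 := by
      cases u <;> simp [EVC_sh, tb]
    rw [Finset.sum_eq_single b]
    · rw [if_pos (by rw [hsh, add_zero])]
    · intro b' _ hne
      rw [if_neg]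
      intro h
      apply hne
      rw [hsh, add_zero] at h
      have h1 := mul_left_cancel₀ (show ((c : ℤ) + 1) ≠ 0 by positivity) h
      exact_mod_cast h1
    · intro h
      exact absurd (Finset.mem_range.2 hb) h
  rw [h, h]
  ring

/-- the value in type `D` -/
theorem EVC_VD (s : Bool) (c b : ℕ) (hb : b + 1 < c) :
    EVC_V false s c (((c : ℤ) + 1) * (b + 1 : ℕ)) = (-1 : ℚ) ^ (b + 1) * ((c - 1).choose (b + 1)) / c.factorial +
      (-1 : ℚ) ^ b * ((c - 1).choose b) / c.factorial := by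
  unfold EVC_V
  have h : ∑ u : Bool, ∑ b' ∈ Finset.range c,
      (if ((c : ℤ) + 1) * (b' + EVC_sh false s u) = ((c : ℤ) + 1) * (b + 1 : ℕ) then
        (-1 : ℚ) ^ b' * ((c - 1).choose b') / c.factorial else 0) =
      ∑ b' ∈ Finset.range c,
      (if ((c : ℤ) + 1) * (b' + EVC_sh false s s) = ((c : ℤ) + 1) * (b + 1 : ℕ) then
        (-1 : ℚ) ^ b' * ((c - 1).choose b') / c.factorial else 0) + ∑ b' ∈ Finset.range c,
      (if ((c : ℤ) + 1) * (b' + EVC_sh false s (!s)) = ((c : ℤ) + 1) * (b + 1 : ℕ) then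
        (-1 : ℚ) ^ b' * ((c - 1).choose b') / c.factorial else 0) := by
    rw [Fintype.sum_bool]
    cases s
    · rw [add_comm]; rfl
    · rfl
  rw [h]
  congr 1
  · have hsh : EVC_sh false s s = 0 := by simp [EVC_sh]
    rw [Finset.sum_eq_single (b + 1)]
    · rw [if_pos (by rw [hsh, add_zero])]
    · intro b' _ hne
      rw [if_neg]
      intro h
      apply hne
      rw [hsh, add_zero] at h
      have h1 := mul_left_cancel₀ (show ((c : ℤ) + 1) ≠ 0 by positivity) h
      exact_mod_cast h1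
    · intro h
      exact absurd (Finset.mem_range.2 hb) h
  · have hsh : EVC_sh false s (!s) = 1 := by
      cases s <;> simp [EVC_sh, tb]
    rw [Finset.sum_eq_single b]
    · rw [if_pos (by rw [hsh]; push_cast; ring)]
    · intro b' _ hne
      rw [if_neg]
      intro h
      apply hne
      rw [hsh] at h
      have h1 := mul_left_cancel₀ (show ((c : ℤ) + 1) ≠ 0 by positivity) h
      push_cast at h1
      have h2 : (b' : ℤ) = b := by linarith
      exact_mod_cast h2
    · intro h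
      exact absurd (Finset.mem_range.2 (by omega)) h

end

end Pool.Agent.PN
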